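import Pool.Agent.Lib.MP_9c4f7e_nt_count.Sys

/-!
Asymptotics: at least `exp ((log X) ^ (1/2 - ε))` numbers up to `X`.
-/

set_option autoImplicit false

namespace PCyc

open Real

theorem log_le_two_sqrt {x : ℝ} (hx : 1 ≤ x) : Real.log x ≤ 2 * √x := by
  have h1 : (0 : ℝ) < √x := Real.sqrt_pos.2 (by linarith)
  have h2 : Real.log x = 2 * Real.log (√x) := by
    rw [Real.log_sqrt (by linarith)]
    ring
  have h3 := Real.log_le_sub_one_of_pos h1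
  rw [h2]
  linarith

theorem prime_count_ge {B : ℕ} (hB : 100 ≤ B) :
    (0.4 : ℝ) * B / Real.log B ≤ (Nat.count Nat.Prime B : ℝ) + 1 := by
  have h1 := Chebyshev.pi_ge B
  have hBr : (100 : ℝ) ≤ B := by exact_mod_cast hB
  have h2 : Real.log (B + 1) ≤ B / 4 := by
    refine (log_le_two_sqrt (by linarith)).trans ?_
    have h3 : √((B : ℝ) + 1) ≤ B / 8 := by
      rw [Real.sqrt_le_left (by positivity)]
      nlinarith
    linarith
  have h4 : (0.4 : ℝ) * B ≤ B * Real.log 2 - Real.log (B + 1) := by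
    have := Real.log_two_gt_d9
    nlinarith
  have h5 : 0 ≤ Real.log B := Real.log_nonneg (by linarith)
  have h6 : (0.4 : ℝ) * B / Real.log B ≤ (B * Real.log 2 - Real.log (B + 1)) / Real.log B :=
    div_le_div_of_nonneg_right h4 h5
  have h7 : Nat.primeCounting B ≤ Nat.count Nat.Prime B + 1 := by
    unfold Nat.primeCounting Nat.primeCounting'
    rw [Nat.count_succ]
    split_ifs <;> omega
  have h8 : (Nat.primeCounting B : ℝ) ≤ (Nat.count Nat.Prime B : ℝ) + 1 := by exact_mod_cast h7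
  linarith

theorem enough_primes (R : ℕ) (hR : 1 ≤ R) : ∃ s₀ : ℕ, ∀ s : ℕ, s₀ ≤ s →
    (R + 1) * s ^ R + (R + 1) < Nat.count Nat.Prime (s ^ (R + 1)) := by
  refine ⟨(5 * (R + 1) * (2 * R + 3) + 1) ^ 2 + 100, fun s hs => ?_⟩
  have hs100 : 100 ≤ s := by
    have := Nat.zero_le ((5 * (R + 1) * (2 * R + 3) + 1) ^ 2)
    omega
  have hsR : s ≤ s ^ (R + 1) := Nat.le_self_pow (by omega) s
  have h1 := prime_count_ge (hs100.trans hsR)
  have hs1 : (1 : ℝ) ≤ s := by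
    have : (100 : ℝ) ≤ s := by exact_mod_cast hs100
    linarith
  have hlog : Real.log ((s ^ (R + 1) : ℕ) : ℝ) = (R + 1) * Real.log s := by
    push_cast
    rw [Real.log_pow]
    push_cast
    ring
  rw [hlog] at h1
  push_cast at h1
  have hlogs : 0 < Real.log s := Real.log_pos (by
    have : (100 : ℝ) ≤ s := by exact_mod_cast hs100
    linarith)
  have hls := log_le_two_sqrt hs1
  have hsq : (5 * (R + 1) * (2 * R + 3) + 1 : ℝ) ≤ √s := by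
    apply Real.le_sqrt_of_sq_le
    have : (((5 * (R + 1) * (2 * R + 3) + 1) ^ 2 : ℕ) : ℝ) ≤ (s : ℝ) := by
      exact_mod_cast (Nat.le_add_right _ 100).trans hs
    push_cast at this
    exact this
  have hsR1 : (1 : ℝ) ≤ (s : ℝ) ^ R := one_le_pow₀ hs1
  have hss : √(s : ℝ) * √(s : ℝ) = s := Real.mul_self_sqrt (by linarith)
  -- the lower bound for the number of primes
  have h2 : ((2 * R + 3 : ℝ)) * (s : ℝ) ^ R < 0.4 * (s : ℝ) ^ (R + 1) / ((R + 1) * Real.log s) := by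
    rw [lt_div_iff₀ (by positivity), pow_succ]
    have h3 : (2 * R + 3 : ℝ) * ((R + 1) * Real.log s) < 0.4 * s := by
      have hR0 : (0 : ℝ) ≤ R := Nat.cast_nonneg R
      calc (2 * R + 3 : ℝ) * ((R + 1) * Real.log s)
          ≤ (2 * R + 3) * ((R + 1) * (2 * √s)) := by gcongr
        _ = 0.4 * ((5 * (R + 1) * (2 * R + 3)) * √s) := by ring
        _ < 0.4 * (√s * √s) := by
          have h4 : (5 * (R + 1) * (2 * R + 3) : ℝ) < √s := by linarith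
          have h5 : 0 < √(s : ℝ) := Real.sqrt_pos.2 (by linarith)
          have := mul_lt_mul_of_pos_right h4 h5
          linarith
        _ = 0.4 * s := by rw [hss]
    have h6 : (0 : ℝ) < (s : ℝ) ^ R := by positivity
    calc (2 * R + 3 : ℝ) * (s : ℝ) ^ R * ((R + 1) * Real.log s)
        = (s : ℝ) ^ R * ((2 * R + 3) * ((R + 1) * Real.log s)) := by ring
      _ < (s : ℝ) ^ R * (0.4 * s) := mul_lt_mul_of_pos_left h3 h6
      _ = 0.4 * ((s : ℝ) ^ R * s) := by ring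
  have h3 : ((R + 1) * (s : ℝ) ^ R + (R + 1)) < (Nat.count Nat.Prime (s ^ (R + 1)) : ℝ) := by
    have hR0 : (0 : ℝ) ≤ R := Nat.cast_nonneg R
    nlinarith
  exact_mod_cast h3

theorem count3 (R : ℕ) (hR : 1 ≤ R) : ∃ s₀ : ℕ, ∀ s : ℕ, s₀ ≤ s →
    2 ^ s ^ (R * (R - 1)) ≤ {k : ℕ | k ≤ 4 ^ s ^ (2 * R ^ 2) ∧ Prim k}.ncard := by
  obtain ⟨s₀, hs₀⟩ := enough_primes R hR
  refine ⟨s₀ + 1, fun s hs => ?_⟩
  obtain ⟨r, rfl⟩ : ∃ r, R = r + 1 := ⟨R - 1, by omega⟩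
  have h := count2 (r := r) (Q := s ^ (r + 1)) (B := s ^ (r + 2)) (pow_pos (by omega) _)
    (hs₀ s (by omega))
  have e1 : (s ^ (r + 1)) ^ r = s ^ ((r + 1) * (r + 1 - 1)) := by
    rw [← pow_mul, Nat.add_sub_cancel]
  have e2 : (s ^ (r + 1)) ^ r * (s ^ (r + 2)) ^ (r + 1) = s ^ (2 * (r + 1) ^ 2) := by
    rw [← pow_mul, ← pow_mul, ← pow_add]
    congr 1
    ring
  rw [e2, e1] at h
  exact h

theorem main (ε : ℝ) (hε : 0 < ε) : ∃ X₀ : ℝ, ∀ X : ℝ, X₀ ≤ X →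
    Real.exp ((Real.log X) ^ (1 / 2 - ε)) ≤ ({k : ℕ | (k : ℝ) ≤ X ∧ Prim k}.ncard : ℝ) := by
  obtain ⟨R, hR⟩ := exists_nat_gt (1 / (2 * ε))
  have hRpos : (0 : ℝ) < R := lt_trans (by positivity) hR
  have hR1 : 1 ≤ R := by
    have : 0 < R := by exact_mod_cast hRpos
    omega
  have hRε : 1 < 2 * ε * R := by
    rw [div_lt_iff₀ (by positivity)] at hR
    linarith
  obtain ⟨s₀, hs₀⟩ := count3 R hR1
  -- exponents
  obtain ⟨δ, hδ⟩ : ∃ δ : ℝ, δ = 2 * R ^ 2 * ε - R := ⟨_, rfl⟩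
  have hδpos : 0 < δ := by
    rw [hδ]
    have : (R : ℝ) * 1 < R * (2 * ε * R) := mul_lt_mul_of_pos_left hRε hRpos
    nlinarith
  have hlog4 : 0 < Real.log 4 := Real.log_pos (by norm_num)
  have hlog2 : 0 < Real.log 2 := Real.log_pos (by norm_num)
  obtain ⟨K, hK⟩ : ∃ K : ℝ, K = (Real.log 4) ^ (1 / 2 - ε) * 2 ^ (R * (R - 1)) / Real.log 2 :=
    ⟨_, rfl⟩
  obtain ⟨x₀, hx₀⟩ := Filter.eventually_atTop.1 ((tendsto_rpow_atTop hδpos).eventually_ge_atTop K)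
  obtain ⟨x₁, hx₁⟩ : ∃ x₁ : ℝ, x₁ = max x₀ (max (s₀ + 1 : ℝ) 1) := ⟨_, rfl⟩
  have hx₁0 : x₀ ≤ x₁ := by rw [hx₁]; exact le_max_left _ _
  have hx₁s : (s₀ + 1 : ℝ) ≤ x₁ := by
    rw [hx₁]; exact (le_max_left _ _).trans (le_max_right _ _)
  have hx₁1 : 1 ≤ x₁ := by
    rw [hx₁]; exact (le_max_right _ _).trans (le_max_right _ _)
  refine ⟨Real.exp (Real.log 4 * x₁ ^ (2 * R ^ 2)), fun X hX => ?_⟩
  have hXpos : 0 < X := (Real.exp_pos _).trans_le hX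
  have hlogX : Real.log 4 * x₁ ^ (2 * R ^ 2) ≤ Real.log X := by
    rw [Real.le_log_iff_exp_le hXpos]
    exact hX
  obtain ⟨L, hL⟩ : ∃ L : ℝ, L = Real.log X / Real.log 4 := ⟨_, rfl⟩
  have hL1 : x₁ ^ (2 * R ^ 2) ≤ L := by
    rw [hL, le_div_iff₀ hlog4]
    linarith
  have hL0 : 0 ≤ L := le_trans (by positivity) hL1
  obtain ⟨x, hx⟩ : ∃ x : ℝ, x = L ^ (((2 * R ^ 2 : ℕ) : ℝ)⁻¹) := ⟨_, rfl⟩
  have hn0 : 2 * R ^ 2 ≠ 0 := by positivity
  have hxL : x ^ (2 * R ^ 2) = L := by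
    rw [hx]
    exact Real.rpow_inv_natCast_pow hL0 hn0
  have hx0 : 0 ≤ x := by
    rw [hx]
    exact Real.rpow_nonneg hL0 _
  have hxx₁ : x₁ ≤ x := by
    by_contra h
    have h1 : x ^ (2 * R ^ 2) < x₁ ^ (2 * R ^ 2) := pow_lt_pow_left₀ (not_le.1 h) hx0 hn0
    rw [hxL] at h1
    linarith
  have hx1 : 1 ≤ x := hx₁1.trans hxx₁
  obtain ⟨s, hs⟩ : ∃ s : ℕ, s = ⌊x⌋₊ := ⟨_, rfl⟩
  have hsx : (s : ℝ) ≤ x := by
    rw [hs]
    exact Nat.floor_le hx0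
  have hsx2 : x / 2 ≤ s := by
    have h1 : x < s + 1 := by
      rw [hs]
      exact Nat.lt_floor_add_one x
    have h2 : (1 : ℝ) ≤ s := by
      rw [hs]
      exact_mod_cast Nat.le_floor (by exact_mod_cast hx1)
    linarith
  have hss₀ : s₀ ≤ s := by
    rw [hs]
    apply Nat.le_floor
    linarith
  have hcount := hs₀ s hss₀
  -- the set
  have hfin : {k : ℕ | (k : ℝ) ≤ X ∧ Prim k}.Finite := by
    refine (Set.finite_Iic ⌊X⌋₊).subset ?_
    intro k hk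
    exact Nat.le_floor hk.1
  have hsub : {k : ℕ | k ≤ 4 ^ s ^ (2 * R ^ 2) ∧ Prim k} ⊆ {k : ℕ | (k : ℝ) ≤ X ∧ Prim k} := by
    rintro k ⟨hk, hk'⟩
    refine ⟨?_, hk'⟩
    have h1 : (k : ℝ) ≤ (4 : ℝ) ^ s ^ (2 * R ^ 2) := by exact_mod_cast hk
    refine h1.trans ?_
    rw [← Real.log_le_log_iff (by positivity) hXpos, Real.log_pow]
    have h2 : ((s ^ (2 * R ^ 2) : ℕ) : ℝ) ≤ L := by
      rw [← hxL]
      push_cast
      exact pow_le_pow_left₀ (Nat.cast_nonneg s) hsx _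
    have h3 : Real.log X = L * Real.log 4 := by
      rw [hL]
      field_simp
    rw [h3]
    exact mul_le_mul_of_nonneg_right h2 hlog4.le
  have h5 : ((2 : ℝ) ^ s ^ (R * (R - 1))) ≤ ({k : ℕ | (k : ℝ) ≤ X ∧ Prim k}.ncard : ℝ) := by
    exact_mod_cast hcount.trans (Set.ncard_le_ncard hsub hfin)
  refine le_trans ?_ h5
  have h6 : (2 : ℝ) ^ s ^ (R * (R - 1)) =
      Real.exp (Real.log 2 * ((s : ℝ) ^ (R * (R - 1)))) := by
    rw [Real.exp_mul, Real.exp_log (by norm_num)]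
    rw [← Real.rpow_natCast]
    push_cast
    rfl
  rw [h6]
  apply Real.exp_le_exp.2
  have h7 : Real.log X = Real.log 4 * x ^ (2 * R ^ 2) := by
    rw [hxL, hL]
    field_simp
  have hxpos : 0 < x := by linarith
  have h8 : (Real.log X) ^ (1 / 2 - ε) = (Real.log 4) ^ (1 / 2 - ε) * x ^ ((R : ℝ) ^ 2 - R - δ) := by
    rw [h7, Real.mul_rpow hlog4.le (by positivity), ← Real.rpow_natCast x, ← Real.rpow_mul hx0]
    congr 2
    push_cast
    rw [hδ]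
    ring
  have h9 : (x / 2) ^ (R * (R - 1)) ≤ (s : ℝ) ^ (R * (R - 1)) :=
    pow_le_pow_left₀ (by positivity) hsx2 _
  have h10 : ((R * (R - 1) : ℕ) : ℝ) = (R : ℝ) ^ 2 - R := by
    rw [Nat.cast_mul, Nat.cast_sub hR1]
    push_cast
    ring
  have h11 : x ^ (R * (R - 1)) = x ^ ((R : ℝ) ^ 2 - R - δ) * x ^ δ := by
    rw [← Real.rpow_add hxpos, sub_add_cancel, ← h10, Real.rpow_natCast]
  have h12 := hx₀ x (hx₁0.trans hxx₁)
  rw [h8]
  have h13 : 0 < x ^ ((R : ℝ) ^ 2 - R - δ) := Real.rpow_pos_of_pos hxpos _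
  calc (Real.log 4) ^ (1 / 2 - ε) * x ^ ((R : ℝ) ^ 2 - R - δ)
      = Real.log 2 * (K / 2 ^ (R * (R - 1))) * x ^ ((R : ℝ) ^ 2 - R - δ) := by
        rw [hK]
        field_simp
    _ ≤ Real.log 2 * (x ^ δ / 2 ^ (R * (R - 1))) * x ^ ((R : ℝ) ^ 2 - R - δ) := by
        gcongr
    _ = Real.log 2 * (x / 2) ^ (R * (R - 1)) := by
        rw [div_pow, h11]
        ring
    _ ≤ Real.log 2 * (s : ℝ) ^ (R * (R - 1)) := by
        gcongr

end PCyc
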