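import Mathlib

/-!
Primitive cycles of the maps `T_k` from families of disjoint residue classes.
-/

set_option autoImplicit false

namespace PCyc

open Finset

/-- the map `T_k` -/
def T (k : ℕ) (y : ℤ) : ℤ := if y % 2 = 1 then (3 * y + (k : ℤ)) / 2 else y / 2

/-- `T_k` has a primitive integer cycle, `k` coprime to 6 -/
def Prim (k : ℕ) : Prop := (k % 6 = 1 ∨ k % 6 = 5) ∧
  ∃ x : ℤ, Int.gcd x (k : ℤ) = 1 ∧ ∃ n : ℕ, 0 < n ∧ (T k)^[n] x = x

/-- `4 ^ d - 3 ^ d` -/
def M (d : ℕ) : ℕ := 4 ^ d - 3 ^ d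

theorem M_add (d : ℕ) : M d + 3 ^ d = 4 ^ d :=
  Nat.sub_add_cancel (Nat.pow_le_pow_left (by norm_num) d)

theorem M_pos {d : ℕ} (hd : 0 < d) : 0 < M d := by
  have h1 := M_add d
  have h2 : 3 ^ d < 4 ^ d := Nat.pow_lt_pow_left (by norm_num) (by omega)
  omega

theorem M_le (d : ℕ) : M d ≤ 4 ^ d := Nat.sub_le _ _

theorem M_cast (d : ℕ) : (M d : ℚ) = 4 ^ d - 3 ^ d := by
  have h := M_add d
  have h1 : ((M d + 3 ^ d : ℕ) : ℚ) = ((4 ^ d : ℕ) : ℚ) := by rw [h]
  push_cast at h1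
  linarith

theorem M_cop2 {d : ℕ} (hd : 0 < d) : Nat.Coprime (M d) 2 := by
  rw [Nat.coprime_two_right, Nat.odd_iff]
  have h := M_add d
  have h3 : 3 ^ d % 2 = 1 := by
    rw [Nat.pow_mod]
    simp
  have h4 : 4 ^ d % 2 = 0 := by
    obtain ⟨e, rfl⟩ : ∃ e, d = e + 1 := ⟨d - 1, by omega⟩
    rw [pow_succ]
    omega
  omega

theorem M_cop3 {d : ℕ} (hd : 0 < d) : Nat.Coprime (M d) 3 := by
  have h := M_add d
  have h3 : 3 ^ d % 3 = 0 := by
    obtain ⟨e, rfl⟩ : ∃ e, d = e + 1 := ⟨d - 1, by omega⟩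
    rw [pow_succ]
    omega
  have h4 : 4 ^ d % 3 = 1 := by
    rw [Nat.pow_mod]
    simp
  have h5 : ¬ 3 ∣ M d := by
    intro h6
    omega
  exact ((Nat.Prime.coprime_iff_not_dvd Nat.prime_three).2 h5).symm

/-- time since the last hit of the class `r` modulo `d` -/
def sp (d r n : ℕ) : ℕ := (n % d + (d - 1 - r % d)) % d

theorem sp_lt {d : ℕ} (hd : 0 < d) (r n : ℕ) : sp d r n < d := Nat.mod_lt _ hd

theorem sp_hit {d : ℕ} (hd : 0 < d) {r n : ℕ} (h : n % d = r % d) : sp d r n = d - 1 := by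
  unfold sp
  have h1 : r % d < d := Nat.mod_lt _ hd
  rw [h]
  have h2 : r % d + (d - 1 - r % d) = d - 1 := by omega
  rw [h2]
  exact Nat.mod_eq_of_lt (by omega)

theorem sp_ne {d : ℕ} (hd : 0 < d) {r n : ℕ} (h : ¬ n % d = r % d) : sp d r n < d - 1 := by
  unfold sp
  have h1 : r % d < d := Nat.mod_lt _ hd
  have h2 : n % d < d := Nat.mod_lt _ hd
  rcases Nat.lt_or_ge (n % d) (r % d) with h3 | h3
  · rw [Nat.mod_eq_of_lt (by omega)]
    omega
  · have h4 : n % d + (d - 1 - r % d) = (n % d - r % d - 1) + d := by omega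
    rw [h4, Nat.add_mod_right, Nat.mod_eq_of_lt (by omega)]
    omega

theorem sp_succ {d : ℕ} (hd : 0 < d) (r n : ℕ) : sp d r (n + 1) = (sp d r n + 1) % d := by
  unfold sp
  rw [Nat.mod_add_mod, Nat.mod_add_mod, add_assoc (n % d), Nat.mod_add_mod]
  congr 1
  ring

theorem sp_period {d : ℕ} (r n m : ℕ) (h : d ∣ m) : sp d r (n + m) = sp d r n := by
  unfold sp
  obtain ⟨q, rfl⟩ := h
  rw [Nat.add_mul_mod_self_left]

/-- numerators -/
def W (d r n : ℕ) : ℕ := 3 ^ sp d r n * 4 ^ (d - 1 - sp d r n)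

theorem W_step {d : ℕ} (hd : 0 < d) (r n : ℕ) :
    4 * (W d r (n + 1) : ℚ) = 3 * (W d r n : ℚ) + (if n % d = r % d then (M d : ℚ) else 0) := by
  unfold W
  rw [sp_succ hd]
  split_ifs with h
  · rw [sp_hit hd h, Nat.sub_add_cancel hd, Nat.mod_self, M_cast]
    obtain ⟨e, rfl⟩ : ∃ e, d = e + 1 := ⟨d - 1, by omega⟩
    simp only [Nat.add_sub_cancel, Nat.sub_zero, Nat.sub_self]
    push_cast
    ring
  · have h1 := sp_ne hd h
    rw [Nat.mod_eq_of_lt (by omega)]
    obtain ⟨e, he⟩ : ∃ e, d - 1 - sp d r n = e + 1 := ⟨d - 1 - sp d r n - 1, by omega⟩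
    have h2 : d - 1 - (sp d r n + 1) = e := by omega
    rw [he, h2]
    push_cast
    ring

theorem W_cop {d : ℕ} (hd : 0 < d) (r n : ℕ) : Nat.Coprime (W d r n) (M d) := by
  unfold W
  have h4 : Nat.Coprime 4 (M d) := by
    have : Nat.Coprime (2 ^ 2) (M d) := Nat.Coprime.pow_left 2 (M_cop2 hd).symm
    exact this
  exact Nat.Coprime.mul_left (Nat.Coprime.pow_left _ (M_cop3 hd).symm) (Nat.Coprime.pow_left _ h4)

section

variable {ι : Type} (S : Finset ι) (d r : ι → ℕ)

/-- the points of the cycle, divided by `k` -/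
noncomputable def X (n : ℕ) : ℚ := 1 + ∑ i ∈ S, (W (d i) (r i) n : ℚ) / (M (d i) : ℚ)

/-- disjointness of the residue classes -/
def Disj : Prop := ∀ i ∈ S, ∀ j ∈ S, i ≠ j → ∀ n, ¬ (n % d i = r i % d i ∧ n % d j = r j % d j)

variable {S d r}

theorem X_step (hd : ∀ i ∈ S, 0 < d i) (hdis : Disj S d r) (n : ℕ) :
    4 * X S d r (n + 1) = 3 * X S d r n + 1 ∨ 4 * X S d r (n + 1) = 3 * X S d r n + 2 := by
  classical
  have h1 : 4 * X S d r (n + 1) = 3 * X S d r n + 1 +
      ∑ i ∈ S, (if n % d i = r i % d i then (1 : ℚ) else 0) := by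
    unfold X
    rw [mul_add, mul_add, mul_sum, mul_sum]
    have h2 : ∀ i ∈ S, 4 * ((W (d i) (r i) (n + 1) : ℚ) / (M (d i) : ℚ)) =
        3 * ((W (d i) (r i) n : ℚ) / (M (d i) : ℚ)) +
          (if n % d i = r i % d i then (1 : ℚ) else 0) := by
      intro i hi
      have hM : (M (d i) : ℚ) ≠ 0 := by
        have := M_pos (hd i hi)
        positivity
      rw [← mul_div_assoc, W_step (hd i hi)]
      split_ifs
      · field_simp
      · field_simp
        ring
    rw [sum_congr rfl h2, sum_add_distrib]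
    ring
  rw [sum_boole] at h1
  have h3 : (S.filter fun i => n % d i = r i % d i).card ≤ 1 := by
    rw [card_le_one]
    intro a ha b hb
    rw [mem_filter] at ha hb
    by_contra hab
    exact hdis a ha.1 b hb.1 hab n ⟨ha.2, hb.2⟩
  have h4 : (S.filter fun i => n % d i = r i % d i).card = 0 ∨
      (S.filter fun i => n % d i = r i % d i).card = 1 := by omega
  rcases h4 with h4 | h4
  · left
    rw [h1, h4]
    norm_num
  · right
    rw [h1, h4]
    push_cast
    ring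

theorem X_period {N : ℕ} (hN : ∀ i ∈ S, d i ∣ N) (n : ℕ) : X S d r (n + N) = X S d r n := by
  unfold X
  congr 1
  refine sum_congr rfl fun i hi => ?_
  unfold W
  rw [sp_period _ _ _ (hN i hi)]

theorem den_dvd_of_mul {x : ℚ} {m : ℕ} (hm : 0 < m) {z : ℤ} (h : (m : ℚ) * x = z) : x.den ∣ m := by
  have h1 : x = (z : ℚ) / ((m : ℤ) : ℚ) := by
    have hm' : ((m : ℤ) : ℚ) ≠ 0 := by
      have : (m : ℚ) ≠ 0 := by positivity
      exact_mod_cast this
    rw [eq_div_iff hm', ← h]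
    push_cast
    ring
  have h2 := Rat.den_dvd z (m : ℤ)
  rw [← Rat.divInt_eq_div] at h1
  rw [← h1] at h2
  exact_mod_cast h2

theorem mul_of_den_dvd {x : ℚ} {m : ℕ} (h : x.den ∣ m) : ∃ z : ℤ, (m : ℚ) * x = z := by
  obtain ⟨q, rfl⟩ := h
  refine ⟨q * x.num, ?_⟩
  have h1 : (x.den : ℚ) * x = x.num := Rat.den_mul_eq_num x
  push_cast
  rw [mul_comm (x.den : ℚ), mul_assoc, h1]

theorem X_prod (hd : ∀ i ∈ S, 0 < d i) (n : ℕ) :
    ∃ z : ℤ, ((∏ i ∈ S, M (d i) : ℕ) : ℚ) * X S d r n = z := by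
  classical
  unfold X
  have h : ∀ U ⊆ S, ∃ z : ℤ, ((∏ i ∈ S, M (d i) : ℕ) : ℚ) *
      ∑ i ∈ U, (W (d i) (r i) n : ℚ) / (M (d i) : ℚ) = z := by
    intro U hU
    induction U using Finset.induction_on with
    | empty => exact ⟨0, by simp⟩
    | insert a U ha ih =>
      obtain ⟨z, hz⟩ := ih ((subset_insert a U).trans hU)
      have haS : a ∈ S := hU (mem_insert_self a U)
      refine ⟨z + (∏ i ∈ S.erase a, M (d i) : ℕ) * W (d a) (r a) n, ?_⟩
      rw [sum_insert ha, mul_add, hz]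
      have hM : (M (d a) : ℚ) ≠ 0 := by
        have := M_pos (hd a haS)
        positivity
      rw [← mul_prod_erase S (fun i => M (d i)) haS]
      push_cast
      field_simp
      ring
  obtain ⟨z, hz⟩ := h S (Subset.refl S)
  refine ⟨(∏ i ∈ S, M (d i) : ℕ) + z, ?_⟩
  rw [mul_add, hz, mul_one]
  push_cast
  ring

theorem prod_pos' (hd : ∀ i ∈ S, 0 < d i) : 0 < ∏ i ∈ S, M (d i) :=
  prod_pos fun i hi => M_pos (hd i hi)

theorem X_den_prod (hd : ∀ i ∈ S, 0 < d i) (n : ℕ) : (X S d r n).den ∣ ∏ i ∈ S, M (d i) := by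
  obtain ⟨z, hz⟩ := X_prod (r := r) hd n
  exact den_dvd_of_mul (prod_pos' hd) hz

theorem X_den_cop2 (hd : ∀ i ∈ S, 0 < d i) (n : ℕ) : Nat.Coprime (X S d r n).den 2 := by
  refine Nat.Coprime.coprime_dvd_left (X_den_prod hd n) ?_
  exact Nat.Coprime.prod_left fun i hi => M_cop2 (hd i hi)

theorem X_den_cop3 (hd : ∀ i ∈ S, 0 < d i) (n : ℕ) : Nat.Coprime (X S d r n).den 3 := by
  refine Nat.Coprime.coprime_dvd_left (X_den_prod hd n) ?_
  exact Nat.Coprime.prod_left fun i hi => M_cop3 (hd i hi)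

theorem X_den (hd : ∀ i ∈ S, 0 < d i) (hdis : Disj S d r) (n : ℕ) :
    (X S d r n).den ∣ (X S d r 0).den := by
  induction n with
  | zero => exact dvd_rfl
  | succ n ih =>
    obtain ⟨z, hz⟩ := mul_of_den_dvd ih
    have h4 : (X S d r (n + 1)).den ∣ 4 * (X S d r 0).den := by
      rcases X_step hd hdis n with h | h
      · refine den_dvd_of_mul (z := 3 * z + (X S d r 0).den) (by
          have := (X S d r 0).den_pos
          omega) ?_
        push_cast
        rw [← hz]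
        linear_combination ((X S d r 0).den : ℚ) * h
      · refine den_dvd_of_mul (z := 3 * z + 2 * (X S d r 0).den) (by
          have := (X S d r 0).den_pos
          omega) ?_
        push_cast
        rw [← hz]
        linear_combination ((X S d r 0).den : ℚ) * h
    have hc : Nat.Coprime (X S d r (n + 1)).den 4 := by
      have : Nat.Coprime (X S d r (n + 1)).den (2 ^ 2) := Nat.Coprime.pow_right 2 (X_den_cop2 hd _)
      exact this
    exact hc.dvd_of_dvd_mul_left h4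

theorem T_two {k : ℕ} (hk : k % 2 = 1) {t t' : ℤ}
    (h : 4 * t' = 3 * t + k ∨ 4 * t' = 3 * t + 2 * k) : T k (T k t) = t' := by
  have hk' : (k : ℤ) % 2 = 1 := by omega
  unfold T
  rcases h with h | h
  · have h1 : t % 2 = 1 := by omega
    rw [if_pos h1]
    have h2 : (3 * t + (k : ℤ)) / 2 = 2 * t' := by omega
    rw [h2, if_neg (by omega)]
    omega
  · have h1 : ¬ t % 2 = 1 := by omega
    rw [if_neg h1]
    have h2 : (t / 2) % 2 = 1 := by omega
    rw [if_pos h2]
    omega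

theorem cyc (hd : ∀ i ∈ S, 0 < d i) (hdis : Disj S d r) : Prim (X S d r 0).den := by
  have hk2 : (X S d r 0).den % 2 = 1 := by
    have h := X_den_cop2 (S := S) (d := d) (r := r) hd 0
    rw [Nat.coprime_two_right, Nat.odd_iff] at h
    exact h
  have hk3 : ¬ (X S d r 0).den % 3 = 0 := by
    intro h
    have h1 := X_den_cop3 (S := S) (d := d) (r := r) hd 0
    have h2 : 3 ∣ (X S d r 0).den := Nat.dvd_of_mod_eq_zero h
    have h3 := Nat.dvd_gcd h2 (dvd_refl 3)
    rw [h1] at h3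
    omega
  refine ⟨by omega, ?_⟩
  choose t ht using fun n => mul_of_den_dvd (X_den hd hdis n)
  have hstep : ∀ n, T (X S d r 0).den (T (X S d r 0).den (t n)) = t (n + 1) := by
    intro n
    apply T_two hk2
    rcases X_step hd hdis n with h | h
    · left
      have h1 : (4 : ℚ) * (t (n + 1) : ℚ) = 3 * (t n : ℚ) + (X S d r 0).den := by
        rw [← ht, ← ht]
        linear_combination ((X S d r 0).den : ℚ) * h
      exact_mod_cast h1
    · right
      have h1 : (4 : ℚ) * (t (n + 1) : ℚ) = 3 * (t n : ℚ) + 2 * (X S d r 0).den := by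
        rw [← ht, ← ht]
        linear_combination ((X S d r 0).den : ℚ) * h
      exact_mod_cast h1
  have hiter : ∀ n, (T (X S d r 0).den)^[2 * n] (t 0) = t n := by
    intro n
    induction n with
    | zero => rfl
    | succ n ih =>
      have h1 : 2 * (n + 1) = 1 + (1 + 2 * n) := by ring
      rw [h1, Function.iterate_add_apply, Function.iterate_add_apply, ih, Function.iterate_one]
      exact hstep n
  refine ⟨t 0, ?_, 2 * ∏ i ∈ S, d i, ?_, ?_⟩
  · have h1 : t 0 = (X S d r 0).num := by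
      have h2 := ht 0
      rw [Rat.den_mul_eq_num] at h2
      exact_mod_cast h2.symm
    rw [h1]
    exact (X S d r 0).reduced
  · have := prod_pos (s := S) (f := d) hd
    omega
  · rw [hiter]
    have h1 : X S d r (∏ i ∈ S, d i) = X S d r 0 := by
      have := X_period (S := S) (d := d) (r := r) (N := ∏ i ∈ S, d i)
        (fun i hi => dvd_prod_of_mem d hi) 0
      rwa [Nat.zero_add] at this
    have h2 : ((t (∏ i ∈ S, d i) : ℤ) : ℚ) = (t 0 : ℚ) := by
      rw [← ht, ← ht, h1]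
    exact_mod_cast h2

theorem X_den_le (hd : ∀ i ∈ S, 0 < d i) : (X S d r 0).den ≤ 4 ^ ∑ i ∈ S, d i := by
  refine (Nat.le_of_dvd (prod_pos' hd) (X_den_prod hd 0)).trans ?_
  rw [← prod_pow_eq_pow_sum]
  exact prod_le_prod' fun i _ => M_le (d i)

end

end PCyc
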