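import Pool.Agent.Lib.MP_9c4f7e_nt_count.Cyc

/-!
Different subfamilies give different denominators.
-/

set_option autoImplicit false

namespace PCyc

open Finset

theorem pp_lcm {p e a b : ℕ} (hp : p.Prime) (ha : a ≠ 0) (hb : b ≠ 0) (h : p ^ e ∣ Nat.lcm a b) :
    p ^ e ∣ a ∨ p ^ e ∣ b := by
  rw [hp.pow_dvd_iff_le_factorization (Nat.lcm_ne_zero ha hb), Nat.factorization_lcm ha hb] at h
  rw [hp.pow_dvd_iff_le_factorization ha, hp.pow_dvd_iff_le_factorization hb]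
  exact le_sup_iff.1 h

theorem nd_add {p e : ℕ} (hp : p.Prime) {x y : ℚ} (hx : ¬ p ^ e ∣ x.den) (hy : ¬ p ^ e ∣ y.den) :
    ¬ p ^ e ∣ (x + y).den := by
  intro h
  rcases pp_lcm hp x.den_ne_zero y.den_ne_zero (h.trans (Rat.add_den_dvd_lcm x y)) with h | h
  · exact hx h
  · exact hy h

theorem nd_sub {p e : ℕ} (hp : p.Prime) {x y : ℚ} (hx : ¬ p ^ e ∣ x.den) (hy : ¬ p ^ e ∣ y.den) :
    ¬ p ^ e ∣ (x - y).den := by
  rw [sub_eq_add_neg]
  exact nd_add hp hx (by rw [Rat.neg_den]; exact hy)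

theorem term_den {d : ℕ} (hd : 0 < d) (r n : ℕ) : ((W d r n : ℚ) / (M d : ℚ)).den = M d := by
  have h1 : (0 : ℤ) < (M d : ℤ) := by exact_mod_cast M_pos hd
  have h2 := Rat.den_div_eq_of_coprime (a := (W d r n : ℤ)) (b := (M d : ℤ)) h1 (by
    rw [Int.natAbs_natCast, Int.natAbs_natCast]
    exact W_cop hd r n)
  push_cast at h2
  exact_mod_cast h2

section

variable {ι : Type} {S : Finset ι} {d r : ι → ℕ}

theorem nd_sum {p e : ℕ} (hp : p.Prime) (he : e ≠ 0) (hd : ∀ i ∈ S, 0 < d i)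
    (h : ∀ j ∈ S, ¬ p ^ e ∣ M (d j)) : ¬ p ^ e ∣ (X S d r 0).den := by
  classical
  have h0 : ¬ p ^ e ∣ (1 : ℚ).den := by
    intro h1
    have h2 : p ^ e = 1 := Nat.dvd_one.1 h1
    rcases Nat.pow_eq_one.1 h2 with h3 | h3
    · exact hp.one_lt.ne' h3
    · exact he h3
  have key : ∀ U ⊆ S, ¬ p ^ e ∣ (1 + ∑ i ∈ U, (W (d i) (r i) 0 : ℚ) / (M (d i) : ℚ)).den := by
    intro U hU
    induction U using Finset.induction_on with
    | empty => rw [sum_empty, add_zero]; exact h0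
    | insert a U ha ih =>
      rw [sum_insert ha, ← add_assoc, add_comm (1 : ℚ), add_assoc]
      have haS : a ∈ S := hU (mem_insert_self a U)
      refine nd_add hp ?_ (ih ((subset_insert a U).trans hU))
      rw [term_den (hd a haS)]
      exact h a haS
  exact key S (Subset.refl S)

theorem mem_iff {p e : ℕ} (hp : p.Prime) (he : e ≠ 0) (hd : ∀ i ∈ S, 0 < d i) {i : ι}
    (hi : p ^ e ∣ M (d i)) (h : ∀ j ∈ S, j ≠ i → ¬ p ^ e ∣ M (d j)) :
    p ^ e ∣ (X S d r 0).den ↔ i ∈ S := by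
  classical
  constructor
  · intro h1
    by_contra h2
    exact nd_sum (r := r) hp he hd (fun j hj => h j hj (fun h3 => h2 (h3 ▸ hj))) h1
  · intro h1
    by_contra h2
    have h3 : ¬ p ^ e ∣ (X (S.erase i) d r 0).den :=
      nd_sum (r := r) hp he (fun j hj => hd j (mem_of_mem_erase hj))
        (fun j hj => h j (mem_of_mem_erase hj) (ne_of_mem_erase hj))
    have h4 : (W (d i) (r i) 0 : ℚ) / (M (d i) : ℚ) = X S d r 0 - X (S.erase i) d r 0 := by
      unfold X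
      rw [← add_sum_erase S _ h1]
      ring
    have h5 := nd_sub hp h2 h3
    rw [← h4, term_den (hd i h1)] at h5
    exact h5 hi

end

/-! ### exponents -/

theorem M_gt {d : ℕ} (hd : 1 < d) : 4 ^ (d - 1) < M d := by
  obtain ⟨e, rfl⟩ : ∃ e, d = e + 1 := ⟨d - 1, by omega⟩
  have h := M_add (e + 1)
  have h1 : 3 ^ e < 4 ^ e := Nat.pow_lt_pow_left (by norm_num) (by omega)
  rw [Nat.add_sub_cancel]
  rw [pow_succ, pow_succ] at h
  omega

theorem exists_new {d : ℕ} (hd : 1 < d) (hs : ∑ q ∈ d.primeFactors, d / q < d) :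
    ∃ p e : ℕ, p.Prime ∧ e ≠ 0 ∧ p ^ e ∣ M d ∧ ∀ q ∈ d.primeFactors, ¬ p ^ e ∣ M (d / q) := by
  by_contra hcon
  push Not at hcon
  have hq0 : ∀ q ∈ d.primeFactors, 0 < d / q := by
    intro q hq
    have h1 := Nat.mem_primeFactors.1 hq
    exact Nat.div_pos (Nat.le_of_dvd (by omega) h1.2.1) h1.1.pos
  have hMd : M d ≠ 0 := (M_pos (by omega)).ne'
  have hprod : ∏ q ∈ d.primeFactors, M (d / q) ≠ 0 :=
    prod_ne_zero_iff.2 fun q hq => (M_pos (hq0 q hq)).ne'
  have h1 : M d ∣ ∏ q ∈ d.primeFactors, M (d / q) := by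
    rw [← Nat.factorization_prime_le_iff_dvd hMd hprod]
    intro p hp
    by_cases he : (M d).factorization p = 0
    · rw [he]
      exact Nat.zero_le _
    · obtain ⟨q, hq, hq2⟩ := hcon p _ hp he (Nat.ordProj_dvd (M d) p)
      rw [← hp.pow_dvd_iff_le_factorization hprod]
      exact hq2.trans (dvd_prod_of_mem _ hq)
  have h2 := Nat.le_of_dvd (Nat.pos_of_ne_zero hprod) h1
  have h3 : ∏ q ∈ d.primeFactors, M (d / q) ≤ 4 ^ (d - 1) := by
    calc ∏ q ∈ d.primeFactors, M (d / q) ≤ ∏ q ∈ d.primeFactors, 4 ^ (d / q) :=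
          prod_le_prod' fun q _ => M_le _
      _ = 4 ^ ∑ q ∈ d.primeFactors, d / q := prod_pow_eq_pow_sum _ _ _
      _ ≤ 4 ^ (d - 1) := Nat.pow_le_pow_right (by norm_num) (by omega)
  have h4 := M_gt hd
  omega

theorem exists_unit {m : ℕ} (h2 : Nat.Coprime m 2) (h3 : Nat.Coprime m 3) :
    ∃ u : (ZMod m)ˣ, ∀ a, m ∣ M a ↔ u ^ a = 1 := by
  have h4 : Nat.Coprime 4 m := by
    have : Nat.Coprime (2 ^ 2) m := Nat.Coprime.pow_left 2 h2.symm
    exact this
  refine ⟨ZMod.unitOfCoprime 4 h4 * (ZMod.unitOfCoprime 3 h3.symm)⁻¹, fun a => ?_⟩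
  rw [mul_pow, inv_pow, mul_inv_eq_one, Units.ext_iff, Units.val_pow_eq_pow_val,
    Units.val_pow_eq_pow_val, ZMod.coe_unitOfCoprime, ZMod.coe_unitOfCoprime,
    ← ZMod.natCast_eq_zero_iff]
  have h5 : ((M a + 3 ^ a : ℕ) : ZMod m) = ((4 ^ a : ℕ) : ZMod m) := by rw [M_add]
  push_cast at h5 ⊢
  constructor
  · intro h6
    rw [← h5, h6, zero_add]
  · intro h6
    rw [← h5] at h6
    simpa using h6

theorem not_dvd_other {d : ℕ} (hd : 1 < d) {p e : ℕ} (h1 : p ^ e ∣ M d)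
    (h2 : ∀ q ∈ d.primeFactors, ¬ p ^ e ∣ M (d / q)) {d' : ℕ} (hd' : ¬ d ∣ d') :
    ¬ p ^ e ∣ M d' := by
  intro h3
  obtain ⟨u, hu⟩ := exists_unit
    (Nat.Coprime.coprime_dvd_left h1 (M_cop2 (by omega : 0 < d)))
    (Nat.Coprime.coprime_dvd_left h1 (M_cop3 (by omega : 0 < d)))
  rw [hu] at h1 h3
  have hg : u ^ Nat.gcd d d' = 1 := by
    rw [← orderOf_dvd_iff_pow_eq_one] at h1 h3 ⊢
    exact Nat.dvd_gcd h1 h3
  obtain ⟨c, hc⟩ := Nat.gcd_dvd_left d d'
  have hc1 : c ≠ 1 := by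
    intro h4
    rw [h4, mul_one] at hc
    apply hd'
    rw [hc]
    exact Nat.gcd_dvd_right d d'
  obtain ⟨q, hq, c', rfl⟩ := Nat.exists_prime_and_dvd hc1
  have hqd : q ∣ d := ⟨Nat.gcd d d' * c', by rw [mul_left_comm]; exact hc⟩
  have hmem : q ∈ d.primeFactors := Nat.mem_primeFactors.2 ⟨hq, hqd, by omega⟩
  apply h2 q hmem
  rw [hu]
  have h5 : d / q = Nat.gcd d d' * c' := by
    apply Nat.div_eq_of_eq_mul_right hq.pos
    rw [mul_left_comm]
    exact hc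
  rw [h5, pow_mul, hg, one_pow]

/-- The number of `k` given by a family of disjoint residue classes. -/
theorem count {ι : Type} (I : Finset ι) (d r : ι → ℕ) (hd : ∀ i ∈ I, 1 < d i)
    (hs : ∀ i ∈ I, ∑ q ∈ (d i).primeFactors, d i / q < d i)
    (hnd : ∀ i ∈ I, ∀ j ∈ I, i ≠ j → ¬ d i ∣ d j) (hdis : Disj I d r) {N : ℕ}
    (hN : ∑ i ∈ I, d i ≤ N) :
    2 ^ I.card ≤ {k : ℕ | k ≤ 4 ^ N ∧ Prim k}.ncard := by
  classical
  have hfin : {k : ℕ | k ≤ 4 ^ N ∧ Prim k}.Finite :=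
    (Set.finite_Iic (4 ^ N)).subset fun k hk => hk.1
  have hsub : ∀ S ∈ I.powerset, (X S d r 0).den ∈ {k : ℕ | k ≤ 4 ^ N ∧ Prim k} := by
    intro S hS
    rw [mem_powerset] at hS
    have hdS : ∀ i ∈ S, 0 < d i := fun i hi => (hd i (hS hi)).trans' Nat.zero_lt_one
    refine ⟨(X_den_le hdS).trans (Nat.pow_le_pow_right (by norm_num) ?_), cyc hdS ?_⟩
    · exact (sum_le_sum_of_subset hS).trans hN
    · intro i hi j hj
      exact hdis i (hS hi) j (hS hj)
  have hinj : Set.InjOn (fun S => (X S d r 0).den) (I.powerset : Set (Finset ι)) := by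
    intro S hS S' hS' hE
    simp only at hE
    rw [mem_coe, mem_powerset] at hS hS'
    ext i
    constructor
    · intro hi
      obtain ⟨p, e, hp, he, h1, h2⟩ := exists_new (hd i (hS hi)) (hs i (hS hi))
      have h3 : ∀ j ∈ I, j ≠ i → ¬ p ^ e ∣ M (d j) := fun j hj hji =>
        not_dvd_other (hd i (hS hi)) h1 h2 (hnd i (hS hi) j hj hji.symm)
      rw [← mem_iff (r := r) hp he (fun j hj => (hd j (hS' hj)).trans' Nat.zero_lt_one) h1
        (fun j hj => h3 j (hS' hj)), ← hE,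
        mem_iff (r := r) hp he (fun j hj => (hd j (hS hj)).trans' Nat.zero_lt_one) h1
        (fun j hj => h3 j (hS hj))]
      exact hi
    · intro hi
      obtain ⟨p, e, hp, he, h1, h2⟩ := exists_new (hd i (hS' hi)) (hs i (hS' hi))
      have h3 : ∀ j ∈ I, j ≠ i → ¬ p ^ e ∣ M (d j) := fun j hj hji =>
        not_dvd_other (hd i (hS' hi)) h1 h2 (hnd i (hS' hi) j hj hji.symm)
      rw [← mem_iff (r := r) hp he (fun j hj => (hd j (hS hj)).trans' Nat.zero_lt_one) h1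
        (fun j hj => h3 j (hS hj)), hE,
        mem_iff (r := r) hp he (fun j hj => (hd j (hS' hj)).trans' Nat.zero_lt_one) h1
        (fun j hj => h3 j (hS' hj))]
      exact hi
  calc 2 ^ I.card = I.powerset.card := (card_powerset I).symm
    _ = (I.powerset.image fun S => (X S d r 0).den).card := (card_image_of_injOn hinj).symm
    _ = ((I.powerset.image fun S => (X S d r 0).den : Finset ℕ) : Set ℕ).ncard :=
        (Set.ncard_coe_finset _).symm
    _ ≤ _ := by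
      refine Set.ncard_le_ncard ?_ hfin
      intro k hk
      rw [mem_coe, mem_image] at hk
      obtain ⟨S, hS, rfl⟩ := hk
      exact hsub S hS

end PCyc
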