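import Pool.Agent.Lib.MP_9c4f7e_nt_count.Asym

/-!
The number of `k ≤ X` with a primitive cycle of period at most `exp ((log X) ^ ε)`: the construction of
`Asym` with a bound for the period.
-/

set_option autoImplicit false

namespace PCyc

open Finset

/-- `T_k` has a primitive integer cycle of period at most `V`, `k` coprime to 6 -/
def PrimV (k V : ℕ) : Prop := (k % 6 = 1 ∨ k % 6 = 5) ∧
  ∃ x : ℤ, Int.gcd x (k : ℤ) = 1 ∧ ∃ n : ℕ, 0 < n ∧ n ≤ V ∧ (T k)^[n] x = x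

theorem cycV {ι : Type} {S : Finset ι} {d r : ι → ℕ} (hd : ∀ i ∈ S, 0 < d i) (hdis : Disj S d r) {N : ℕ}
    (hN0 : 0 < N) (hN : ∀ i ∈ S, d i ∣ N) : PrimV (X S d r 0).den (2 * N) := by
  have hk2 : (X S d r 0).den % 2 = 1 := by
    have h := X_den_cop2 (S := S) (d := d) (r := r) hd 0
    rw [Nat.coprime_two_right, Nat.odd_iff] at h
    exact h
  have hk3 : ¬ (X S d r 0).den % 3 = 0 := by
    intro h
    have h1 := X_den_cop3 (S := S) (d := d) (r := r) hd 0
    have h2 : 3 ∣ (X S d r 0).den := Nat.dvd_of_mod_eq_zero h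
    have h3 := Nat.dvd_gcd h2 (dvd_refl 3)
    rw [h1] at h3
    omega
  refine ⟨by omega, ?_⟩
  choose t ht using fun n => mul_of_den_dvd (X_den hd hdis n)
  have hstep : ∀ n, T (X S d r 0).den (T (X S d r 0).den (t n)) = t (n + 1) := by
    intro n
    apply T_two hk2
    rcases X_step hd hdis n with h | h
    · left
      have h1 : (4 : ℚ) * (t (n + 1) : ℚ) = 3 * (t n : ℚ) + (X S d r 0).den := by
        rw [← ht, ← ht]
        linear_combination ((X S d r 0).den : ℚ) * h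
      exact_mod_cast h1
    · right
      have h1 : (4 : ℚ) * (t (n + 1) : ℚ) = 3 * (t n : ℚ) + 2 * (X S d r 0).den := by
        rw [← ht, ← ht]
        linear_combination ((X S d r 0).den : ℚ) * h
      exact_mod_cast h1
  have hiter : ∀ n, (T (X S d r 0).den)^[2 * n] (t 0) = t n := by
    intro n
    induction n with
    | zero => rfl
    | succ n ih =>
      have h1 : 2 * (n + 1) = 1 + (1 + 2 * n) := by ring
      rw [h1, Function.iterate_add_apply, Function.iterate_add_apply, ih, Function.iterate_one]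
      exact hstep n
  refine ⟨t 0, ?_, 2 * N, by omega, le_rfl, ?_⟩
  · have h1 : t 0 = (X S d r 0).num := by
      have h2 := ht 0
      rw [Rat.den_mul_eq_num] at h2
      exact_mod_cast h2.symm
    rw [h1]
    exact (X S d r 0).reduced
  · rw [hiter]
    have h1 : X S d r N = X S d r 0 := by
      have := X_period (S := S) (d := d) (r := r) (N := N) hN 0
      rwa [Nat.zero_add] at this
    have h2 : ((t N : ℤ) : ℚ) = (t 0 : ℚ) := by
      rw [← ht, ← ht, h1]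
    exact_mod_cast h2

/-- The number of `k` given by a family of disjoint residue classes. -/
theorem countV {ι : Type} (I : Finset ι) (d r : ι → ℕ) (hd : ∀ i ∈ I, 1 < d i)
    (hs : ∀ i ∈ I, ∑ q ∈ (d i).primeFactors, d i / q < d i)
    (hnd : ∀ i ∈ I, ∀ j ∈ I, i ≠ j → ¬ d i ∣ d j) (hdis : Disj I d r) {N V : ℕ}
    (hN : ∑ i ∈ I, d i ≤ N) (hV0 : 0 < V) (hV : ∀ i ∈ I, d i ∣ V) :
    2 ^ I.card ≤ {k : ℕ | k ≤ 4 ^ N ∧ PrimV k (2 * V)}.ncard := by
  classical
  have hfin : {k : ℕ | k ≤ 4 ^ N ∧ PrimV k (2 * V)}.Finite :=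
    (Set.finite_Iic (4 ^ N)).subset fun k hk => hk.1
  have hsub : ∀ S ∈ I.powerset, (X S d r 0).den ∈ {k : ℕ | k ≤ 4 ^ N ∧ PrimV k (2 * V)} := by
    intro S hS
    rw [mem_powerset] at hS
    have hdS : ∀ i ∈ S, 0 < d i := fun i hi => (hd i (hS hi)).trans' Nat.zero_lt_one
    refine ⟨(X_den_le hdS).trans (Nat.pow_le_pow_right (by norm_num) ?_),
      cycV hdS ?_ hV0 fun i hi => hV i (hS hi)⟩
    · exact (sum_le_sum_of_subset hS).trans hN
    · intro i hi j hj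
      exact hdis i (hS hi) j (hS hj)
  have hinj : Set.InjOn (fun S => (X S d r 0).den) (I.powerset : Set (Finset ι)) := by
    intro S hS S' hS' hE
    simp only at hE
    rw [mem_coe, mem_powerset] at hS hS'
    ext i
    constructor
    · intro hi
      obtain ⟨p, e, hp, he, h1, h2⟩ := exists_new (hd i (hS hi)) (hs i (hS hi))
      have h3 : ∀ j ∈ I, j ≠ i → ¬ p ^ e ∣ M (d j) := fun j hj hji =>
        not_dvd_other (hd i (hS hi)) h1 h2 (hnd i (hS hi) j hj hji.symm)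
      rw [← mem_iff (r := r) hp he (fun j hj => (hd j (hS' hj)).trans' Nat.zero_lt_one) h1
        (fun j hj => h3 j (hS' hj)), ← hE,
        mem_iff (r := r) hp he (fun j hj => (hd j (hS hj)).trans' Nat.zero_lt_one) h1
        (fun j hj => h3 j (hS hj))]
      exact hi
    · intro hi
      obtain ⟨p, e, hp, he, h1, h2⟩ := exists_new (hd i (hS' hi)) (hs i (hS' hi))
      have h3 : ∀ j ∈ I, j ≠ i → ¬ p ^ e ∣ M (d j) := fun j hj hji =>
        not_dvd_other (hd i (hS' hi)) h1 h2 (hnd i (hS' hi) j hj hji.symm)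
      rw [← mem_iff (r := r) hp he (fun j hj => (hd j (hS hj)).trans' Nat.zero_lt_one) h1
        (fun j hj => h3 j (hS hj)), hE,
        mem_iff (r := r) hp he (fun j hj => (hd j (hS' hj)).trans' Nat.zero_lt_one) h1
        (fun j hj => h3 j (hS' hj))]
      exact hi
  calc 2 ^ I.card = I.powerset.card := (card_powerset I).symm
    _ = (I.powerset.image fun S => (X S d r 0).den).card := (card_image_of_injOn hinj).symm
    _ = ((I.powerset.image fun S => (X S d r 0).den : Finset ℕ) : Set ℕ).ncard :=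
        (Set.ncard_coe_finset _).symm
    _ ≤ _ := by
      refine Set.ncard_le_ncard ?_ hfin
      intro k hk
      rw [mem_coe, mem_image] at hk
      obtain ⟨S, hS, rfl⟩ := hk
      exact hsub S hS

/-- the product of all the primes used -/
noncomputable def VV (c Q r : ℕ) : ℕ := ∏ i ∈ range (r + 1), ∏ a ∈ range Q, P c Q i a

theorem VV_pos (c Q r : ℕ) : 0 < VV c Q r :=
  prod_pos fun i _ => prod_pos fun a _ => (P_prime c Q i a).pos

theorem dd_dvd_VV {c Q r : ℕ} (hQ : 0 < Q) (a : Fin r → Fin Q) : dd c Q a ∣ VV c Q r := by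
  unfold dd VV
  exact prod_dvd_prod_of_dvd _ _ fun i _ =>
    dvd_prod_of_mem (fun b => P c Q i b) (mem_range.2 (ex_lt hQ a i))

theorem VV_le {c Q r B : ℕ} (hB : c + (r + 1) * Q < Nat.count Nat.Prime B) :
    VV c Q r ≤ B ^ (Q * (r + 1)) := by
  unfold VV
  calc ∏ i ∈ range (r + 1), ∏ a ∈ range Q, P c Q i a ≤ ∏ _i ∈ range (r + 1), B ^ Q := by
        refine prod_le_prod' fun i hi => ?_
        calc ∏ a ∈ range Q, P c Q i a ≤ ∏ _a ∈ range Q, B := by
              refine prod_le_prod' fun a ha => ?_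
              have h1 := mem_range.1 ha
              have h2 : i ≤ r := Nat.le_of_lt_succ (mem_range.1 hi)
              refine (Nat.nth_lt_of_lt_count ?_).le
              refine lt_of_le_of_lt ?_ hB
              have h3 : i * Q ≤ r * Q := Nat.mul_le_mul_right Q h2
              have h4 : (r + 1) * Q = r * Q + Q := by ring
              omega
          _ = B ^ Q := by rw [prod_const, card_range]
    _ = B ^ (Q * (r + 1)) := by rw [prod_const, card_range, ← pow_mul]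

/-- The number of `k` obtained. -/
theorem count2V {r Q B : ℕ} (hQ : 0 < Q)
    (hB : (r + 2) * Q + (r + 2) < Nat.count Nat.Prime B) :
    2 ^ Q ^ r ≤ {k : ℕ | k ≤ 4 ^ (Q ^ r * B ^ (r + 1)) ∧ PrimV k (2 * B ^ (Q * (r + 1)))}.ncard := by
  classical
  have hB2 : Q + r + 2 + (r + 1) * Q < Nat.count Nat.Prime B := by
    refine lt_of_le_of_lt ?_ hB
    have : (r + 2) * Q = (r + 1) * Q + Q := by ring
    omega
  have h := countV (univ : Finset (Fin r → Fin Q)) (dd (Q + r + 2) Q) (rr (Q + r + 2) Q hQ)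
    (fun a _ => dd_gt a) (fun a _ => dd_sum (by omega) a)
    (fun a _ b _ hab => dd_not_dvd hQ hab) (disj hQ (by omega)) (N := Q ^ r * B ^ (r + 1))
    (V := VV (Q + r + 2) Q r) (by
      calc ∑ a : Fin r → Fin Q, dd (Q + r + 2) Q a ≤ ∑ _a : Fin r → Fin Q, B ^ (r + 1) :=
            sum_le_sum fun a _ => dd_le hQ hB2 a
        _ = Q ^ r * B ^ (r + 1) := by
            rw [sum_const, card_univ, Fintype.card_fun, Fintype.card_fin, Fintype.card_fin,
              smul_eq_mul]) (VV_pos _ _ _) (fun a _ => dd_dvd_VV hQ a)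
  rw [card_univ, Fintype.card_fun, Fintype.card_fin, Fintype.card_fin] at h
  refine h.trans (Set.ncard_le_ncard ?_ ((Set.finite_Iic _).subset fun k hk => hk.1))
  rintro k ⟨hk, h6, x, hx, n, hn0, hnV, hn⟩
  exact ⟨hk, h6, x, hx, n, hn0, hnV.trans (Nat.mul_le_mul_left 2 (VV_le hB2)), hn⟩

theorem count3V (R : ℕ) (hR : 1 ≤ R) : ∃ s₀ : ℕ, ∀ s : ℕ, s₀ ≤ s →
    2 ^ s ^ (R * (R - 1)) ≤
      {k : ℕ | k ≤ 4 ^ s ^ (2 * R ^ 2) ∧ PrimV k (2 * (s ^ (R + 1)) ^ (s ^ R * R))}.ncard := by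
  obtain ⟨s₀, hs₀⟩ := enough_primes R hR
  refine ⟨s₀ + 1, fun s hs => ?_⟩
  obtain ⟨r, rfl⟩ : ∃ r, R = r + 1 := ⟨R - 1, by omega⟩
  have h := count2V (r := r) (Q := s ^ (r + 1)) (B := s ^ (r + 2)) (pow_pos (by omega) _)
    (hs₀ s (by omega))
  have e1 : (s ^ (r + 1)) ^ r = s ^ ((r + 1) * (r + 1 - 1)) := by
    rw [← pow_mul, Nat.add_sub_cancel]
  have e2 : (s ^ (r + 1)) ^ r * (s ^ (r + 2)) ^ (r + 1) = s ^ (2 * (r + 1) ^ 2) := by
    rw [← pow_mul, ← pow_mul, ← pow_add]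
    congr 1
    ring
  rw [e2, e1] at h
  exact h

/-- **Many `k` with a primitive cycle of period at most `exp ((log X) ^ ε)`.** -/
theorem mainV (ε : ℝ) (hε : 0 < ε) : ∃ X₀ : ℝ, ∀ X : ℝ, X₀ ≤ X → ∃ V : ℕ,
    (V : ℝ) ≤ Real.exp ((Real.log X) ^ ε) ∧
    Real.exp ((Real.log X) ^ (1 / 2 - ε)) ≤ ({k : ℕ | (k : ℝ) ≤ X ∧ PrimV k V}.ncard : ℝ) := by
  obtain ⟨R, hR⟩ := exists_nat_gt (1 / (2 * ε))
  have hRpos : (0 : ℝ) < R := lt_trans (by positivity) hR
  have hR1 : 1 ≤ R := by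
    have : 0 < R := by exact_mod_cast hRpos
    omega
  have hRε : 1 < 2 * ε * R := by
    rw [div_lt_iff₀ (by positivity)] at hR
    linarith
  obtain ⟨s₀, hs₀⟩ := count3V R hR1
  -- exponents
  obtain ⟨δ, hδ⟩ : ∃ δ : ℝ, δ = 2 * R ^ 2 * ε - R := ⟨_, rfl⟩
  have hδpos : 0 < δ := by
    rw [hδ]
    have : (R : ℝ) * 1 < R * (2 * ε * R) := mul_lt_mul_of_pos_left hRε hRpos
    nlinarith
  have hlog4 : 0 < Real.log 4 := Real.log_pos (by norm_num)
  have hlog2 : 0 < Real.log 2 := Real.log_pos (by norm_num)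
  have hlog41 : 1 ≤ Real.log 4 := by
    have h1 : Real.log 4 = 2 * Real.log 2 := by
      rw [show (4 : ℝ) = 2 ^ 2 by norm_num, Real.log_pow]
      norm_num
    have := Real.log_two_gt_d9
    linarith
  obtain ⟨K, hK⟩ : ∃ K : ℝ, K = (Real.log 4) ^ (1 / 2 - ε) * 2 ^ (R * (R - 1)) / Real.log 2 :=
    ⟨_, rfl⟩
  obtain ⟨x₀, hx₀⟩ := Filter.eventually_atTop.1 ((tendsto_rpow_atTop hδpos).eventually_ge_atTop K)
  have hev : ∀ᶠ x : ℝ in Filter.atTop, 1 + (R : ℝ) * (R + 1) * Real.log x ≤ x ^ δ := by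
    have h1 := (isLittleO_log_rpow_atTop hδpos).bound
      (c := 1 / (2 * ((R : ℝ) * (R + 1)))) (by positivity)
    have h2 : ∀ᶠ x : ℝ in Filter.atTop, 2 ≤ x ^ δ :=
      (tendsto_rpow_atTop hδpos).eventually_ge_atTop 2
    filter_upwards [h1, h2, Filter.eventually_ge_atTop (1 : ℝ)] with x g1 g2 g3
    rw [Real.norm_of_nonneg (Real.log_nonneg g3),
      Real.norm_of_nonneg (Real.rpow_nonneg (by linarith) _)] at g1
    have g4 : (R : ℝ) * (R + 1) * Real.log x ≤ x ^ δ / 2 := by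
      calc (R : ℝ) * (R + 1) * Real.log x
          ≤ (R : ℝ) * (R + 1) * (1 / (2 * ((R : ℝ) * (R + 1))) * x ^ δ) :=
            mul_le_mul_of_nonneg_left g1 (by positivity)
        _ = x ^ δ / 2 := by field_simp
    linarith
  obtain ⟨x₂, hx₂⟩ := Filter.eventually_atTop.1 hev
  obtain ⟨x₁, hx₁⟩ : ∃ x₁ : ℝ, x₁ = max (max x₀ x₂) (max (s₀ + 1 : ℝ) 1) := ⟨_, rfl⟩
  have hx₁0 : x₀ ≤ x₁ := by rw [hx₁]; exact (le_max_left _ _).trans (le_max_left _ _)
  have hx₁2 : x₂ ≤ x₁ := by rw [hx₁]; exact (le_max_right _ _).trans (le_max_left _ _)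
  have hx₁s : (s₀ + 1 : ℝ) ≤ x₁ := by
    rw [hx₁]; exact (le_max_left _ _).trans (le_max_right _ _)
  have hx₁1 : 1 ≤ x₁ := by
    rw [hx₁]; exact (le_max_right _ _).trans (le_max_right _ _)
  refine ⟨Real.exp (Real.log 4 * x₁ ^ (2 * R ^ 2)), fun X hX => ?_⟩
  have hXpos : 0 < X := (Real.exp_pos _).trans_le hX
  have hlogX : Real.log 4 * x₁ ^ (2 * R ^ 2) ≤ Real.log X := by
    rw [Real.le_log_iff_exp_le hXpos]
    exact hX
  obtain ⟨L, hL⟩ : ∃ L : ℝ, L = Real.log X / Real.log 4 := ⟨_, rfl⟩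
  have hL1 : x₁ ^ (2 * R ^ 2) ≤ L := by
    rw [hL, le_div_iff₀ hlog4]
    linarith
  have hL0 : 0 ≤ L := le_trans (by positivity) hL1
  obtain ⟨x, hx⟩ : ∃ x : ℝ, x = L ^ (((2 * R ^ 2 : ℕ) : ℝ)⁻¹) := ⟨_, rfl⟩
  have hn0 : 2 * R ^ 2 ≠ 0 := by positivity
  have hxL : x ^ (2 * R ^ 2) = L := by
    rw [hx]
    exact Real.rpow_inv_natCast_pow hL0 hn0
  have hx0 : 0 ≤ x := by
    rw [hx]
    exact Real.rpow_nonneg hL0 _
  have hxx₁ : x₁ ≤ x := by
    by_contra h
    have h1 : x ^ (2 * R ^ 2) < x₁ ^ (2 * R ^ 2) := pow_lt_pow_left₀ (not_le.1 h) hx0 hn0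
    rw [hxL] at h1
    linarith
  have hx1 : 1 ≤ x := hx₁1.trans hxx₁
  obtain ⟨s, hs⟩ : ∃ s : ℕ, s = ⌊x⌋₊ := ⟨_, rfl⟩
  have hsx : (s : ℝ) ≤ x := by
    rw [hs]
    exact Nat.floor_le hx0
  have hs1 : (1 : ℝ) ≤ s := by
    rw [hs]
    exact_mod_cast Nat.le_floor (by exact_mod_cast hx1)
  have hsx2 : x / 2 ≤ s := by
    have h1 : x < s + 1 := by
      rw [hs]
      exact Nat.lt_floor_add_one x
    linarith
  have hss₀ : s₀ ≤ s := by
    rw [hs]
    apply Nat.le_floor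
    linarith
  have hcount := hs₀ s hss₀
  have h7 : Real.log X = Real.log 4 * x ^ (2 * R ^ 2) := by
    rw [hxL, hL]
    field_simp
  have hxpos : 0 < x := by linarith
  refine ⟨2 * (s ^ (R + 1)) ^ (s ^ R * R), ?_, ?_⟩
  · -- the period
    have h1 : ((2 * (s ^ (R + 1)) ^ (s ^ R * R) : ℕ) : ℝ) =
        Real.exp (Real.log 2 + (R : ℝ) * (R + 1) * ((s : ℝ) ^ R * Real.log s)) := by
      rw [Real.exp_add, Real.exp_log (by norm_num)]
      push_cast
      congr 1
      have h2 : (R : ℝ) * (R + 1) * ((s : ℝ) ^ R * Real.log s) =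
          (((R + 1) * (s ^ R * R) : ℕ) : ℝ) * Real.log s := by
        push_cast
        ring
      rw [h2, Real.exp_nat_mul, Real.exp_log (by linarith), ← pow_mul]
    rw [h1]
    apply Real.exp_le_exp.mpr
    have hls : Real.log s ≤ Real.log x := Real.log_le_log (by linarith) hsx
    have hls0 : 0 ≤ Real.log s := Real.log_nonneg hs1
    have hsR : (s : ℝ) ^ R ≤ x ^ R := pow_le_pow_left₀ (by linarith) hsx R
    have hxR1 : 1 ≤ x ^ R := one_le_pow₀ hx1
    have h2 : (s : ℝ) ^ R * Real.log s ≤ x ^ R * Real.log x :=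
      mul_le_mul hsR hls hls0 (by positivity)
    have h3 := hx₂ x (hx₁2.trans hxx₁)
    have h4 : (Real.log X) ^ ε = (Real.log 4) ^ ε * x ^ ((R : ℝ) + δ) := by
      rw [h7, Real.mul_rpow hlog4.le (by positivity), ← Real.rpow_natCast x, ← Real.rpow_mul hx0]
      congr 2
      push_cast
      rw [hδ]
      ring
    have h5 : 1 ≤ (Real.log 4) ^ ε := Real.one_le_rpow hlog41 hε.le
    have h6 : x ^ ((R : ℝ) + δ) = x ^ R * x ^ δ := by
      rw [Real.rpow_add hxpos, Real.rpow_natCast]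
    have h8 : Real.log 2 ≤ 1 := by
      have := Real.log_two_lt_d9
      linarith
    calc Real.log 2 + (R : ℝ) * (R + 1) * ((s : ℝ) ^ R * Real.log s)
        ≤ x ^ R * 1 + (R : ℝ) * (R + 1) * (x ^ R * Real.log x) := by
          have h9 : (R : ℝ) * (R + 1) * ((s : ℝ) ^ R * Real.log s) ≤
            (R : ℝ) * (R + 1) * (x ^ R * Real.log x) := mul_le_mul_of_nonneg_left h2 (by positivity)
          linarith
      _ = x ^ R * (1 + (R : ℝ) * (R + 1) * Real.log x) := by ring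
      _ ≤ x ^ R * x ^ δ := mul_le_mul_of_nonneg_left h3 (by positivity)
      _ = x ^ ((R : ℝ) + δ) := h6.symm
      _ = 1 * x ^ ((R : ℝ) + δ) := (one_mul _).symm
      _ ≤ (Real.log 4) ^ ε * x ^ ((R : ℝ) + δ) :=
          mul_le_mul_of_nonneg_right h5 (by positivity)
      _ = (Real.log X) ^ ε := h4.symm
  · -- the set
    obtain ⟨V, hV⟩ : ∃ V : ℕ, V = 2 * (s ^ (R + 1)) ^ (s ^ R * R) := ⟨_, rfl⟩
    rw [← hV] at hcount ⊢
    have hfin : {k : ℕ | (k : ℝ) ≤ X ∧ PrimV k V}.Finite := by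
      refine (Set.finite_Iic ⌊X⌋₊).subset ?_
      intro k hk
      exact Nat.le_floor hk.1
    have hsub : {k : ℕ | k ≤ 4 ^ s ^ (2 * R ^ 2) ∧ PrimV k V} ⊆ {k : ℕ | (k : ℝ) ≤ X ∧ PrimV k V} := by
      rintro k ⟨hk, hk'⟩
      refine ⟨?_, hk'⟩
      have h1 : (k : ℝ) ≤ (4 : ℝ) ^ s ^ (2 * R ^ 2) := by exact_mod_cast hk
      refine h1.trans ?_
      rw [← Real.log_le_log_iff (by positivity) hXpos, Real.log_pow]
      have h2 : ((s ^ (2 * R ^ 2) : ℕ) : ℝ) ≤ L := by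
        rw [← hxL]
        push_cast
        exact pow_le_pow_left₀ (Nat.cast_nonneg s) hsx _
      have h3 : Real.log X = L * Real.log 4 := by
        rw [hL]
        field_simp
      rw [h3]
      exact mul_le_mul_of_nonneg_right h2 hlog4.le
    have h5 : ((2 : ℝ) ^ s ^ (R * (R - 1))) ≤ ({k : ℕ | (k : ℝ) ≤ X ∧ PrimV k V}.ncard : ℝ) := by
      exact_mod_cast hcount.trans (Set.ncard_le_ncard hsub hfin)
    refine le_trans ?_ h5
    have h6 : (2 : ℝ) ^ s ^ (R * (R - 1)) =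
        Real.exp (Real.log 2 * ((s : ℝ) ^ (R * (R - 1)))) := by
      rw [Real.exp_mul, Real.exp_log (by norm_num)]
      rw [← Real.rpow_natCast]
      push_cast
      rfl
    rw [h6]
    apply Real.exp_le_exp.2
    have h8 : (Real.log X) ^ (1 / 2 - ε) = (Real.log 4) ^ (1 / 2 - ε) * x ^ ((R : ℝ) ^ 2 - R - δ) := by
      rw [h7, Real.mul_rpow hlog4.le (by positivity), ← Real.rpow_natCast x, ← Real.rpow_mul hx0]
      congr 2
      push_cast
      rw [hδ]
      ring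
    have h9 : (x / 2) ^ (R * (R - 1)) ≤ (s : ℝ) ^ (R * (R - 1)) :=
      pow_le_pow_left₀ (by positivity) hsx2 _
    have h10 : ((R * (R - 1) : ℕ) : ℝ) = (R : ℝ) ^ 2 - R := by
      rw [Nat.cast_mul, Nat.cast_sub hR1]
      push_cast
      ring
    have h11 : x ^ (R * (R - 1)) = x ^ ((R : ℝ) ^ 2 - R - δ) * x ^ δ := by
      rw [← Real.rpow_add hxpos, sub_add_cancel, ← h10, Real.rpow_natCast]
    have h12 := hx₀ x (hx₁0.trans hxx₁)
    rw [h8]
    have h13 : 0 < x ^ ((R : ℝ) ^ 2 - R - δ) := Real.rpow_pos_of_pos hxpos _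
    calc (Real.log 4) ^ (1 / 2 - ε) * x ^ ((R : ℝ) ^ 2 - R - δ)
        = Real.log 2 * (K / 2 ^ (R * (R - 1))) * x ^ ((R : ℝ) ^ 2 - R - δ) := by
          rw [hK]
          field_simp
      _ ≤ Real.log 2 * (x ^ δ / 2 ^ (R * (R - 1))) * x ^ ((R : ℝ) ^ 2 - R - δ) := by
          gcongr
      _ = Real.log 2 * (x / 2) ^ (R * (R - 1)) := by
          rw [div_pow, h11]
          ring
      _ ≤ Real.log 2 * (s : ℝ) ^ (R * (R - 1)) := by
          gcongr

end PCyc
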