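import Pool.Agent.Lib.MP_9c4f7e_nt_count.Inj

/-!
Disjoint residue classes with many moduli: the moduli are products of primes, one of each level; the
residue modulo the prime of level `i` is the number of the prime of level `i + 1`.
-/

set_option autoImplicit false

namespace PCyc

open Finset

section

variable (c Q : ℕ)

/-- the prime number `a` of level `i` -/
noncomputable def P (i a : ℕ) : ℕ := Nat.nth Nat.Prime (c + i * Q + a)

theorem P_prime (i a : ℕ) : (P c Q i a).Prime := Nat.prime_nth_prime _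

theorem P_ge (i a : ℕ) : c ≤ P c Q i a := by
  have h := (Nat.nth_strictMono Nat.infinite_setOfPred_prime).le_apply (x := c + i * Q + a)
  unfold P
  exact le_trans (by omega) h

variable {c Q}

theorem P_inj {i j a b : ℕ} (ha : a < Q) (hb : b < Q) (h : P c Q i a = P c Q j b) :
    i = j ∧ a = b := by
  have h1 := (Nat.nth_strictMono Nat.infinite_setOfPred_prime).injective h
  have h2 : i * Q + a = j * Q + b := by omega
  have h3 : (i * Q + a) / Q = i := by
    rw [mul_comm, Nat.mul_add_div (by omega), Nat.div_eq_of_lt ha, add_zero]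
  have h4 : (j * Q + b) / Q = j := by
    rw [mul_comm, Nat.mul_add_div (by omega), Nat.div_eq_of_lt hb, add_zero]
  have h5 : i = j := by rw [← h3, ← h4, h2]
  subst h5
  exact ⟨rfl, by omega⟩

variable {r : ℕ}

/-- extension of a tuple by zeros -/
def ex (a : Fin r → Fin Q) : ℕ → ℕ
  | 0 => 0
  | i + 1 => if h : i < r then (a ⟨i, h⟩ : ℕ) else 0

theorem ex_succ (a : Fin r → Fin Q) (i : ℕ) :
    ex a (i + 1) = if h : i < r then (a ⟨i, h⟩ : ℕ) else 0 := rfl

theorem ex_lt (hQ : 0 < Q) (a : Fin r → Fin Q) (i : ℕ) : ex a i < Q := by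
  cases i with
  | zero => exact hQ
  | succ i =>
    rw [ex_succ]
    split_ifs
    · exact (a _).2
    · exact hQ

theorem ex_eq {a b : Fin r → Fin Q} (h : ∀ i ≤ r, ex a i = ex b i) : a = b := by
  funext i
  have h1 := h (i + 1) i.2
  rw [ex_succ, ex_succ, dif_pos i.2, dif_pos i.2] at h1
  exact Fin.ext h1

/-- the moduli -/
noncomputable def dd (c Q : ℕ) {r : ℕ} (a : Fin r → Fin Q) : ℕ :=
  ∏ i ∈ range (r + 1), P c Q i (ex a i)

theorem P_dvd (a : Fin r → Fin Q) {i : ℕ} (hi : i ≤ r) : P c Q i (ex a i) ∣ dd c Q a :=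
  dvd_prod_of_mem (fun i => P c Q i (ex a i)) (mem_range.2 (Nat.lt_succ_of_le hi))

theorem dd_pos (a : Fin r → Fin Q) : 0 < dd c Q a := prod_pos fun i _ => (P_prime c Q i _).pos

theorem dd_gt (a : Fin r → Fin Q) : 1 < dd c Q a :=
  (P_prime c Q 0 (ex a 0)).one_lt.trans_le (Nat.le_of_dvd (dd_pos a) (P_dvd a (Nat.zero_le r)))

theorem prime_dvd_dd {a : Fin r → Fin Q} {q : ℕ} (hq : q.Prime) (h : q ∣ dd c Q a) :
    ∃ i ≤ r, q = P c Q i (ex a i) := by
  unfold dd at h
  rw [(Nat.prime_iff.1 hq).dvd_finsetProd_iff] at h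
  obtain ⟨i, hi, h1⟩ := h
  exact ⟨i, Nat.le_of_lt_succ (mem_range.1 hi), (Nat.prime_dvd_prime_iff_eq hq (P_prime c Q i _)).1 h1⟩

theorem dd_not_dvd (hQ : 0 < Q) {a b : Fin r → Fin Q} (hab : a ≠ b) : ¬ dd c Q a ∣ dd c Q b := by
  intro h
  apply hab
  apply ex_eq
  intro i hi
  obtain ⟨j, hj, h1⟩ := prime_dvd_dd (P_prime c Q i (ex a i)) ((P_dvd a hi).trans h)
  obtain ⟨h2, h3⟩ := P_inj (ex_lt hQ a i) (ex_lt hQ b j) h1
  rw [h3, h2]

theorem dd_sum (hc : r + 2 ≤ c) (a : Fin r → Fin Q) :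
    ∑ q ∈ (dd c Q a).primeFactors, dd c Q a / q < dd c Q a := by
  classical
  have h1 : (dd c Q a).primeFactors ⊆ (range (r + 1)).image fun i => P c Q i (ex a i) := by
    intro q hq
    have h2 := Nat.mem_primeFactors.1 hq
    obtain ⟨i, hi, h3⟩ := prime_dvd_dd h2.1 h2.2.1
    exact mem_image.2 ⟨i, mem_range.2 (Nat.lt_succ_of_le hi), h3.symm⟩
  have h2 : (dd c Q a).primeFactors.card ≤ r + 1 := by
    refine (card_le_card h1).trans (card_image_le.trans ?_)
    rw [card_range]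
  have h3 : (r + 2) * ∑ q ∈ (dd c Q a).primeFactors, dd c Q a / q ≤ (r + 1) * dd c Q a := by
    rw [mul_sum]
    calc ∑ q ∈ (dd c Q a).primeFactors, (r + 2) * (dd c Q a / q)
        ≤ ∑ _q ∈ (dd c Q a).primeFactors, dd c Q a := by
          refine sum_le_sum fun q hq => ?_
          have h4 := Nat.mem_primeFactors.1 hq
          obtain ⟨i, hi, h5⟩ := prime_dvd_dd h4.1 h4.2.1
          have h6 : r + 2 ≤ q := by
            rw [h5]
            exact hc.trans (P_ge c Q i _)
          calc (r + 2) * (dd c Q a / q) ≤ q * (dd c Q a / q) := Nat.mul_le_mul_right _ h6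
            _ = dd c Q a := Nat.mul_div_cancel' h4.2.1
      _ = (dd c Q a).primeFactors.card * dd c Q a := by rw [sum_const, smul_eq_mul]
      _ ≤ (r + 1) * dd c Q a := Nat.mul_le_mul_right _ h2
  have h4 := dd_pos (c := c) a
  by_contra h5
  have h6 : (r + 2) * dd c Q a ≤ (r + 1) * dd c Q a :=
    (Nat.mul_le_mul_left (r + 2) (not_lt.1 h5)).trans h3
  have h7 : (r + 2) * dd c Q a = (r + 1) * dd c Q a + dd c Q a := by ring
  omega

theorem exists_res (hQ : 0 < Q) (a : Fin r → Fin Q) :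
    ∃ x : ℕ, ∀ i ≤ r, x ≡ ex a (i + 1) [MOD P c Q i (ex a i)] := by
  obtain ⟨x, hx⟩ := Nat.chineseRemainderOfFinset (fun i => ex a (i + 1))
    (fun i => P c Q i (ex a i)) (range (r + 1))
    (fun i _ => (P_prime c Q i _).ne_zero) (by
      intro i hi j hj hij
      refine (Nat.coprime_primes (P_prime c Q i _) (P_prime c Q j _)).2 ?_
      intro h
      exact hij (P_inj (ex_lt hQ a i) (ex_lt hQ a j) h).1)
  exact ⟨x, fun i hi => hx i (mem_range.2 (Nat.lt_succ_of_le hi))⟩

/-- the residues -/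
noncomputable def rr (c Q : ℕ) {r : ℕ} (hQ : 0 < Q) (a : Fin r → Fin Q) : ℕ :=
  (exists_res (c := c) hQ a).choose

theorem rr_spec (hQ : 0 < Q) (a : Fin r → Fin Q) {i : ℕ} (hi : i ≤ r) :
    rr c Q hQ a ≡ ex a (i + 1) [MOD P c Q i (ex a i)] :=
  (exists_res (c := c) hQ a).choose_spec i hi

theorem disj (hQ : 0 < Q) (hc : Q ≤ c) :
    Disj (univ : Finset (Fin r → Fin Q)) (dd c Q) (rr c Q hQ) := by
  intro a _ b _ hab n ⟨h1, h2⟩
  apply hab
  apply ex_eq
  have ha : ∀ i ≤ r, n ≡ ex a (i + 1) [MOD P c Q i (ex a i)] := by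
    intro i hi
    have h3 : n ≡ rr c Q hQ a [MOD dd c Q a] := h1
    exact (h3.of_dvd (P_dvd a hi)).trans (rr_spec hQ a hi)
  have hb : ∀ i ≤ r, n ≡ ex b (i + 1) [MOD P c Q i (ex b i)] := by
    intro i hi
    have h3 : n ≡ rr c Q hQ b [MOD dd c Q b] := h2
    exact (h3.of_dvd (P_dvd b hi)).trans (rr_spec hQ b hi)
  intro i
  induction i with
  | zero => intro _; rfl
  | succ i ih =>
    intro hi
    have h3 := ih (by omega)
    have h4 := ha i (by omega)
    have h5 := hb i (by omega)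
    rw [← h3] at h5
    have h6 : ex a (i + 1) ≡ ex b (i + 1) [MOD P c Q i (ex a i)] := h4.symm.trans h5
    have h7 := hc.trans (P_ge c Q i (ex a i))
    exact Nat.ModEq.eq_of_lt_of_lt h6 ((ex_lt hQ a _).trans_le h7) ((ex_lt hQ b _).trans_le h7)

theorem dd_le {B : ℕ} (hQ : 0 < Q) (hB : c + (r + 1) * Q < Nat.count Nat.Prime B)
    (a : Fin r → Fin Q) : dd c Q a ≤ B ^ (r + 1) := by
  unfold dd
  calc ∏ i ∈ range (r + 1), P c Q i (ex a i) ≤ ∏ _i ∈ range (r + 1), B := by
        refine prod_le_prod' fun i hi => ?_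
        have h1 := ex_lt hQ a i
        have h2 : i ≤ r := Nat.le_of_lt_succ (mem_range.1 hi)
        refine (Nat.nth_lt_of_lt_count ?_).le
        refine lt_of_le_of_lt ?_ hB
        have h3 : i * Q ≤ r * Q := Nat.mul_le_mul_right Q h2
        have h4 : (r + 1) * Q = r * Q + Q := by ring
        omega
    _ = B ^ (r + 1) := by rw [prod_const, card_range]

end

/-- The number of `k` obtained. -/
theorem count2 {r Q B : ℕ} (hQ : 0 < Q)
    (hB : (r + 2) * Q + (r + 2) < Nat.count Nat.Prime B) :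
    2 ^ Q ^ r ≤ {k : ℕ | k ≤ 4 ^ (Q ^ r * B ^ (r + 1)) ∧ Prim k}.ncard := by
  classical
  have h := count (univ : Finset (Fin r → Fin Q)) (dd (Q + r + 2) Q) (rr (Q + r + 2) Q hQ)
    (fun a _ => dd_gt a) (fun a _ => dd_sum (by omega) a)
    (fun a _ b _ hab => dd_not_dvd hQ hab) (disj hQ (by omega)) (N := Q ^ r * B ^ (r + 1)) (by
      calc ∑ a : Fin r → Fin Q, dd (Q + r + 2) Q a ≤ ∑ _a : Fin r → Fin Q, B ^ (r + 1) := by
            refine sum_le_sum fun a _ => dd_le hQ ?_ a
            refine lt_of_le_of_lt ?_ hB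
            have : (r + 2) * Q = (r + 1) * Q + Q := by ring
            omega
        _ = Q ^ r * B ^ (r + 1) := by
            rw [sum_const, card_univ, Fintype.card_fun, Fintype.card_fin, Fintype.card_fin,
              smul_eq_mul])
  rwa [card_univ, Fintype.card_fun, Fintype.card_fin, Fintype.card_fin] at h

end PCyc
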